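import Mathlib

/-!
# Exceptional triangle-free quasi-symmetric designs: `k / y` is not a prime power
-/

set_option autoImplicit false

open Finset

namespace Pool.Agent.Helper677.QSD

/-- `B` is the block set of an exceptional triangle-free quasi-symmetric `2-(v,k,lam)` design with
intersection numbers `0` and `y`. -/
structure Exceptional (v k lam y : ℕ) (B : Finset (Finset (Fin v))) : Prop where
  two_le : 2 ≤ y
  lower : 2 * y < k
  upper : k < y * (y + 1)
  card_block : ∀ b ∈ B, b.card = k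
  balance : ∀ p q : Fin v, p ≠ q → (B.filter (fun b => p ∈ b ∧ q ∈ b)).card = lam
  inter : ∀ b ∈ B, ∀ c ∈ B, b ≠ c → (b ∩ c).card = 0 ∨ (b ∩ c).card = y
  has_zero : ∃ b ∈ B, ∃ c ∈ B, b ≠ c ∧ (b ∩ c).card = 0
  has_y : ∃ b ∈ B, ∃ c ∈ B, b ≠ c ∧ (b ∩ c).card = y
  triangle_free : ¬ ∃ a ∈ B, ∃ b ∈ B, ∃ c ∈ B, Disjoint a b ∧ Disjoint a c ∧ Disjoint b c

/-! ### Indicator functions -/

/-- Indicator of `p ∈ b`. -/
def chi {v : ℕ} (b : Finset (Fin v)) (p : Fin v) : ℤ := if p ∈ b then 1 else 0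

/-- Indicator of `b ∩ d ≠ ∅`. -/
def A {v : ℕ} (b d : Finset (Fin v)) : ℤ := if (b ∩ d).card = 0 then 0 else 1

variable {v k lam y : ℕ} {B : Finset (Finset (Fin v))}

lemma sum_chi (b : Finset (Fin v)) : ∑ p, chi b p = b.card := by
  simp [chi]

lemma sum_chi_mul (b c : Finset (Fin v)) : ∑ p, chi b p * chi c p = ((b ∩ c).card : ℤ) := by
  simp only [chi, mul_ite, mul_one, mul_zero, ← ite_and]
  rw [← Finset.sum_filter, Finset.sum_const, nsmul_eq_mul, mul_one]
  congr 2
  ext p
  simp [and_comm]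

/-- Number of blocks through `p`. -/
def R (B : Finset (Finset (Fin v))) (p : Fin v) : ℤ := ∑ b ∈ B, chi b p

lemma pair_sum (h : ∀ p q : Fin v, p ≠ q → (B.filter (fun b => p ∈ b ∧ q ∈ b)).card = lam)
    (p q : Fin v) : ∑ b ∈ B, chi b p * chi b q = lam + (if q = p then R B p - lam else 0) := by
  by_cases hpq : q = p
  · subst hpq
    rw [if_pos rfl, R]
    have : ∀ b ∈ B, chi b q * chi b q = chi b q := by
      intro b _
      unfold chi; split_ifs <;> simp
    rw [Finset.sum_congr rfl this]; ring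
  · rw [if_neg hpq, add_zero, ← h p q (fun e => hpq e.symm), Finset.card_filter]
    push_cast
    refine Finset.sum_congr rfl fun b _ => ?_
    unfold chi
    by_cases h1 : p ∈ b <;> by_cases h2 : q ∈ b <;> simp [h1, h2]

lemma R_eq (hc : ∀ b ∈ B, b.card = k)
    (h : ∀ p q : Fin v, p ≠ q → (B.filter (fun b => p ∈ b ∧ q ∈ b)).card = lam) (p : Fin v) :
    ((k : ℤ) - 1) * R B p = lam * ((v : ℤ) - 1) := by
  have h1 : ∑ q, ∑ b ∈ B, chi b p * chi b q = k * R B p := by
    rw [Finset.sum_comm, R, Finset.mul_sum]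
    refine Finset.sum_congr rfl fun b hb => ?_
    rw [← Finset.mul_sum, sum_chi, hc b hb]; ring
  have h2 : ∑ q, ∑ b ∈ B, chi b p * chi b q = (v : ℤ) * lam + (R B p - lam) := by
    rw [Finset.sum_congr rfl fun q _ => pair_sum h p q, Finset.sum_add_distrib]
    simp
  linarith

/-- The key sum over blocks. -/
lemma key_sum (h : ∀ p q : Fin v, p ≠ q → (B.filter (fun b => p ∈ b ∧ q ∈ b)).card = lam)
    (b : Finset (Fin v)) (p : Fin v) :
    ∑ c ∈ B, ((b ∩ c).card : ℤ) * chi c p = lam * b.card + (R B p - lam) * chi b p := by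
  have h1 : ∑ c ∈ B, ((b ∩ c).card : ℤ) * chi c p =
      ∑ q, chi b q * ∑ c ∈ B, chi c p * chi c q := by
    simp only [← sum_chi_mul, Finset.sum_mul, Finset.mul_sum]
    rw [Finset.sum_comm]
    refine Finset.sum_congr rfl fun q _ => Finset.sum_congr rfl fun c _ => ?_
    ring
  rw [h1, Finset.sum_congr rfl fun q _ => by rw [pair_sum h p q]]
  simp only [mul_add, Finset.sum_add_distrib, ← Finset.sum_mul, sum_chi, mul_ite, mul_zero]
  simp
  ring

/-- The number of blocks through `p` meeting `b`. -/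
def N (B : Finset (Finset (Fin v))) (b : Finset (Fin v)) (p : Fin v) : ℤ :=
  ∑ c ∈ B, A b c * chi c p

lemma inter_eq (E : Exceptional v k lam y B) {b c : Finset (Fin v)} (hb : b ∈ B) (hc : c ∈ B) :
    ((b ∩ c).card : ℤ) = y * A b c + (if c = b then ((k : ℤ) - y) else 0) := by
  have hk : 0 < k := by have := E.lower; omega
  by_cases h : c = b
  · subst h
    rw [if_pos rfl, A, Finset.inter_self, E.card_block _ hc, if_neg (by omega)]
    ring
  · rw [if_neg h, A, add_zero]
    rcases E.inter b hb c hc (fun e => h e.symm) with h1 | h1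
    · rw [h1, if_pos rfl]; simp
    · have hy := E.two_le
      rw [h1, if_neg (by omega)]; ring

lemma N_eq (E : Exceptional v k lam y B) {b : Finset (Fin v)} (hb : b ∈ B) (p : Fin v) :
    (y : ℤ) * N B b p = lam * k + (R B p - lam - k + y) * chi b p := by
  have h := key_sum E.balance b p
  rw [Finset.sum_congr rfl fun c hc => by rw [inter_eq E hb hc]] at h
  simp only [add_mul, Finset.sum_add_distrib, ite_mul, zero_mul] at h
  rw [Finset.sum_ite_eq' B b, if_pos hb, E.card_block b hb] at h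
  have h2 : ∑ c ∈ B, (y : ℤ) * A b c * chi c p = y * N B b p := by
    rw [N, Finset.mul_sum]
    refine Finset.sum_congr rfl fun c _ => by ring
  rw [h2] at h
  linarith

lemma A_cases (b d : Finset (Fin v)) : A b d = 0 ∨ A b d = 1 := by
  unfold A; split_ifs <;> simp

lemma A_one {b d : Finset (Fin v)} {p : Fin v} (h1 : p ∈ b) (h2 : p ∈ d) : A b d = 1 := by
  unfold A
  rw [if_neg]
  rw [Finset.card_eq_zero]
  exact Finset.Nonempty.ne_empty ⟨p, Finset.mem_inter.2 ⟨h1, h2⟩⟩

lemma A_zero_iff {b d : Finset (Fin v)} : A b d = 0 ↔ Disjoint b d := by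
  unfold A
  rw [Finset.disjoint_iff_inter_eq_empty, ← Finset.card_eq_zero]
  split_ifs with h <;> simp [h]

lemma N_mem {r : ℤ} (hr : ∀ p, R B p = r) {b : Finset (Fin v)} {p : Fin v} (hp : p ∈ b) :
    N B b p = r := by
  rw [← hr p, N, R]
  refine Finset.sum_congr rfl fun c _ => ?_
  by_cases h : p ∈ c
  · rw [A_one hp h, one_mul]
  · simp [chi, h]

lemma T_eq (E : Exceptional v k lam y B) {r : ℤ} (hr : ∀ p, R B p = r)
    (hrk : ((k : ℤ) - 1) * r = lam * ((v : ℤ) - 1)) {b : Finset (Fin v)} (hb : b ∈ B) :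
    (y : ℤ) * ∑ c ∈ B, A b c = r * k - k + y := by
  have hk : (0 : ℤ) < k := by have := E.lower; omega
  have h1 : ∑ p, N B b p = k * ∑ c ∈ B, A b c := by
    simp only [N]
    rw [Finset.sum_comm, Finset.mul_sum]
    refine Finset.sum_congr rfl fun c hc => ?_
    rw [← Finset.mul_sum, sum_chi, E.card_block c hc]; ring
  have h2 : ∑ p, (y : ℤ) * N B b p = v * (lam * k) + (r - lam - k + y) * k := by
    have h3 : ∑ x, (r - lam - k + y) * chi b x = (r - lam - k + y) * k := by
      rw [← Finset.mul_sum, sum_chi, E.card_block b hb]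
    rw [Finset.sum_congr rfl fun p _ => by rw [N_eq E hb p, hr p], Finset.sum_add_distrib, h3]
    simp
  rw [← Finset.mul_sum, h1] at h2
  have h3 : (k : ℤ) * (y * ∑ c ∈ B, A b c) = k * (r * k - k + y) := by
    linear_combination h2 - k * hrk
  exact mul_left_cancel₀ hk.ne' h3

lemma card_B (E : Exceptional v k lam y B) {r : ℤ} (hr : ∀ p, R B p = r) :
    (k : ℤ) * B.card = v * r := by
  have h1 : ∑ p, R B p = k * B.card := by
    simp only [R]
    rw [Finset.sum_comm, Finset.sum_congr rfl fun b hb => by rw [sum_chi, E.card_block b hb]]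
    simp [mul_comm]
  rw [← h1, Finset.sum_congr rfl fun p _ => hr p]
  simp

lemma tri (E : Exceptional v k lam y B) {b c : Finset (Fin v)} (hb : b ∈ B) (hc : c ∈ B)
    (hbc : Disjoint b c) {d : Finset (Fin v)} (hd : d ∈ B) :
    A b d + A c d - A b d * A c d = 1 := by
  rcases A_cases b d with h1 | h1 <;> rcases A_cases c d with h2 | h2 <;> rw [h1, h2] <;> norm_num
  exact E.triangle_free ⟨b, hb, c, hc, d, hd, hbc, A_zero_iff.1 h1, A_zero_iff.1 h2⟩

lemma prod_inter (E : Exceptional v k lam y B) {b c : Finset (Fin v)} (hb : b ∈ B) (hc : c ∈ B)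
    (hbc : Disjoint b c) {d : Finset (Fin v)} (hd : d ∈ B) :
    ((b ∩ d).card : ℤ) * (c ∩ d).card = (y : ℤ) ^ 2 * (A b d * A c d) := by
  by_cases h1 : d = b
  · subst h1
    have h2 : (c ∩ d).card = 0 := by
      rw [Finset.card_eq_zero, ← Finset.disjoint_iff_inter_eq_empty]; exact hbc.symm
    have h3 : A c d = 0 := A_zero_iff.2 hbc.symm
    rw [h2, h3]; simp
  by_cases h1' : d = c
  · subst h1'
    have h2 : (b ∩ d).card = 0 := by
      rw [Finset.card_eq_zero, ← Finset.disjoint_iff_inter_eq_empty]; exact hbc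
    have h3 : A b d = 0 := A_zero_iff.2 hbc
    rw [h2, h3]; simp
  rw [inter_eq E hb hd, inter_eq E hc hd, if_neg h1, if_neg h1']
  ring

lemma M_eq (E : Exceptional v k lam y B) {r : ℤ} (hr : ∀ p, R B p = r)
    {b c : Finset (Fin v)} (hb : b ∈ B) (hc : c ∈ B) (hbc : Disjoint b c) :
    (y : ℤ) ^ 2 * ∑ d ∈ B, A b d * A c d = lam * (k : ℤ) ^ 2 := by
  rw [Finset.mul_sum, Finset.sum_congr rfl fun d hd => (prod_inter E hb hc hbc hd).symm]
  have h1 : ∑ d ∈ B, ((b ∩ d).card : ℤ) * (c ∩ d).card =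
      ∑ q, chi b q * ∑ d ∈ B, ((c ∩ d).card : ℤ) * chi d q := by
    simp only [← sum_chi_mul b, Finset.sum_mul, Finset.mul_sum]
    rw [Finset.sum_comm]
    refine Finset.sum_congr rfl fun q _ => Finset.sum_congr rfl fun d _ => ?_
    ring
  rw [h1, Finset.sum_congr rfl fun q _ => by rw [key_sum E.balance c q, hr q]]
  simp only [mul_add, Finset.sum_add_distrib, ← Finset.sum_mul, sum_chi]
  have h2 : ∑ q, chi b q * ((r - lam) * chi c q) = 0 := by
    have : ∑ q, chi b q * ((r - lam) * chi c q) = (r - lam) * ∑ q, chi b q * chi c q := by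
      rw [Finset.mul_sum]
      refine Finset.sum_congr rfl fun q _ => by ring
    rw [this, sum_chi_mul, Finset.disjoint_iff_inter_eq_empty.1 hbc]; simp
  rw [h2, E.card_block b hb, E.card_block c hc]
  ring

lemma card_B' (E : Exceptional v k lam y B)
    {b c : Finset (Fin v)} (hb : b ∈ B) (hc : c ∈ B) (hbc : Disjoint b c) :
    (B.card : ℤ) = ∑ d ∈ B, A b d + ∑ d ∈ B, A c d - ∑ d ∈ B, A b d * A c d := by
  rw [← Finset.sum_add_distrib, ← Finset.sum_sub_distrib,
    Finset.sum_congr rfl fun d hd => tri E hb hc hbc hd]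
  simp

lemma N_add (E : Exceptional v k lam y B) {r : ℤ} (hr : ∀ p, R B p = r)
    {b c : Finset (Fin v)} (hb : b ∈ B) (hc : c ∈ B) (hbc : Disjoint b c) (p : Fin v) :
    ∑ d ∈ B, (A b d * A c d) * chi d p = N B b p + N B c p - r := by
  rw [← hr p, N, N, R, ← Finset.sum_add_distrib, ← Finset.sum_sub_distrib]
  refine Finset.sum_congr rfl fun d hd => ?_
  have := tri E hb hc hbc hd
  linear_combination (-chi d p) * this

/-! ### Divisibility -/

lemma exists_other (E : Exceptional v k lam y B) {r : ℤ} (hr : ∀ p, R B p = r)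
    {b e : Finset (Fin v)} (hb : b ∈ B) (he : e ∈ B) (hbe : Disjoint b e) :
    ∃ c ∈ B, c ≠ e ∧ Disjoint b c := by
  by_contra hcon
  push Not at hcon
  have hk : 0 < k := by have := E.lower; omega
  -- the number of blocks through `p` missing `b` is `chi e p`
  have h1 : ∀ p, r - N B b p = chi e p := by
    intro p
    rw [← hr p, N, R, ← Finset.sum_sub_distrib, Finset.sum_eq_single e]
    · rw [A_zero_iff.2 hbe]; ring
    · intro c hc hce
      have : A b c = 1 := by
        rcases A_cases b c with h | h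
        · exact absurd (A_zero_iff.1 h) (hcon c hc hce)
        · exact h
      rw [this]; ring
    · intro h; exact absurd he h
  obtain ⟨p0, hp0⟩ : e.Nonempty := by
    rw [← Finset.card_pos, E.card_block e he]; exact hk
  have hp0b : p0 ∉ b := fun h => Finset.disjoint_left.1 hbe h hp0
  have hy : (0 : ℤ) < y := by have := E.two_le; omega
  have h2 : ∀ p, p ∉ b → p ∈ e := by
    intro p hp
    have e1 := N_eq E hb p
    have e2 := N_eq E hb p0
    have c1 : chi b p = 0 := by simp [chi, hp]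
    have c2 : chi b p0 = 0 := by simp [chi, hp0b]
    rw [c1] at e1
    rw [c2] at e2
    have e3 : N B b p = N B b p0 := by
      apply mul_left_cancel₀ hy.ne'
      linarith
    have e4 := h1 p
    rw [e3, h1 p0] at e4
    by_contra hpe
    simp [chi, hp0, hpe] at e4
  obtain ⟨b1, hb1, b2, hb2, hne, hint⟩ := E.has_y
  obtain ⟨f, hf, hfb, hfe⟩ : ∃ f ∈ B, f ≠ b ∧ f ≠ e := by
    by_cases hA : b1 ≠ b ∧ b1 ≠ e
    · exact ⟨b1, hb1, hA⟩
    by_cases hB : b2 ≠ b ∧ b2 ≠ e
    · exact ⟨b2, hb2, hB⟩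
    exfalso
    have hyy := E.two_le
    have hd : (b ∩ e).card = 0 := by
      rw [Finset.card_eq_zero, ← Finset.disjoint_iff_inter_eq_empty]; exact hbe
    have hd' : (e ∩ b).card = 0 := by rw [Finset.inter_comm]; exact hd
    have h5 : b1 = b ∨ b1 = e := by tauto
    have h6 : b2 = b ∨ b2 = e := by tauto
    rcases h5 with rfl | rfl <;> rcases h6 with rfl | rfl
    · exact hne rfl
    · omega
    · omega
    · exact hne rfl
  have h7 : f = (b ∩ f) ∪ (e ∩ f) := by
    ext p
    simp only [Finset.mem_union, Finset.mem_inter]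
    constructor
    · intro hp
      by_cases hpb : p ∈ b
      · exact Or.inl ⟨hpb, hp⟩
      · exact Or.inr ⟨h2 p hpb, hp⟩
    · rintro (⟨-, h⟩ | ⟨-, h⟩) <;> exact h
  have h8 : f.card ≤ (b ∩ f).card + (e ∩ f).card := by
    conv_lhs => rw [h7]
    exact Finset.card_union_le _ _
  have h9 : (b ∩ f).card ≤ y := by
    rcases E.inter b hb f hf (Ne.symm hfb) with h | h <;> omega
  have h10 : (e ∩ f).card ≤ y := by
    rcases E.inter e he f hf (Ne.symm hfe) with h | h <;> omega
  have := E.card_block f hf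
  have := E.lower
  omega

/-- Basic data of an exceptional design. -/
lemma basic (E : Exceptional v k lam y B) : ∃ (r ρ : ℤ) (b c : Finset (Fin v)),
    (∀ p, R B p = r) ∧ ((k : ℤ) - 1) * r = lam * ((v : ℤ) - 1) ∧ b ∈ B ∧ c ∈ B ∧
    Disjoint b c ∧ 1 ≤ ρ ∧ ρ ≤ r ∧ (y : ℤ) * ρ = y * r - lam * k ∧
    (y : ℤ) * r = lam * k + (r - lam - k + y) := by
  have hk : 0 < k := by have := E.lower; omega
  obtain ⟨b, hb, c, hc, hne, hbc0⟩ := E.has_zero
  have hbc : Disjoint b c := by
    rw [Finset.disjoint_iff_inter_eq_empty, ← Finset.card_eq_zero]; exact hbc0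
  obtain ⟨p0, hp0⟩ : c.Nonempty := by
    rw [← Finset.card_pos, E.card_block c hc]; exact hk
  obtain ⟨p1, hp1⟩ : b.Nonempty := by
    rw [← Finset.card_pos, E.card_block b hb]; exact hk
  have hp0b : p0 ∉ b := fun h => Finset.disjoint_left.1 hbc h hp0
  have hr : ∀ p, R B p = R B p0 := by
    intro p
    have h1 := R_eq E.card_block E.balance p
    have h2 := R_eq E.card_block E.balance p0
    have h3 : (k : ℤ) - 1 ≠ 0 := by
      have := E.lower
      have := E.two_le
      have : (1 : ℤ) < k := by omega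
      omega
    apply mul_left_cancel₀ h3
    rw [h1, h2]
  have hN0 := N_eq E hb p0
  have c2 : chi b p0 = 0 := by simp [chi, hp0b]
  rw [c2, mul_zero, add_zero] at hN0
  have hN1 := N_eq E hb p1
  have c1 : chi b p1 = 1 := by simp [chi, hp1]
  rw [c1, mul_one, N_mem hr hp1, hr p1] at hN1
  refine ⟨R B p0, R B p0 - N B b p0, b, c, hr, R_eq E.card_block E.balance p0, hb, hc, hbc,
    ?_, ?_, by rw [mul_sub, hN0], hN1⟩
  · -- the block `c` is not counted
    rw [R, N, ← Finset.sum_sub_distrib]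
    have h1 : ∀ d ∈ B, 0 ≤ chi d p0 - A b d * chi d p0 := by
      intro d _
      rcases A_cases b d with h | h <;> rw [h] <;> unfold chi <;> split_ifs <;> norm_num
    have h2 : chi c p0 - A b c * chi c p0 = 1 := by
      rw [A_zero_iff.2 hbc]; simp [chi, hp0]
    calc (1 : ℤ) = chi c p0 - A b c * chi c p0 := h2.symm
      _ ≤ _ := Finset.single_le_sum h1 hc
  · have : 0 ≤ N B b p0 := by
      rw [N]
      refine Finset.sum_nonneg fun d _ => ?_
      rcases A_cases b d with h | h <;> rw [h] <;> unfold chi <;> split_ifs <;> norm_num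
    linarith

/-- `y ∣ k`. -/
lemma y_dvd_k (E : Exceptional v k lam y B) : (y : ℤ) ∣ k := by
  obtain ⟨r, ρ, b, c, hr, hrk, hb, hc, hbc, hρ1, hρr, hρ, hF2⟩ := basic E
  have hk : (0 : ℤ) < k := by have := E.lower; omega
  have hy : (0 : ℤ) < y := by have := E.two_le; omega
  have hr1 : 1 ≤ r := by linarith
  have hlam : (0 : ℤ) < lam := by
    have hv : (2 : ℤ) ≤ v := by
      have h1 : (b ∪ c).card ≤ v := by
        simpa using Finset.card_le_univ (b ∪ c)
      rw [Finset.card_union_of_disjoint hbc, E.card_block b hb, E.card_block c hc] at h1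
      have := E.lower
      have := E.two_le
      omega
    have hk1 : (1 : ℤ) < k := by
      have := E.lower
      have := E.two_le
      omega
    by_contra h
    have h0 : (lam : ℤ) = 0 := by
      have : (0 : ℤ) ≤ lam := by positivity
      omega
    rw [h0, zero_mul] at hrk
    rcases mul_eq_zero.1 hrk with h | h
    · omega
    · omega
  -- N for any block
  have hN : ∀ d ∈ B, ∀ p, N B d p = (r - ρ) + ρ * chi d p := by
    intro d hd p
    apply mul_left_cancel₀ hy.ne'
    rw [N_eq E hd p, hr p]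
    linear_combination (1 - chi d p) * hρ - hF2 * chi d p
  -- a block meeting both
  obtain ⟨e, he, hbe, hce⟩ : ∃ e ∈ B, A b e = 1 ∧ A c e = 1 := by
    by_contra hcon
    push Not at hcon
    have h1 : ∑ d ∈ B, A b d * A c d = 0 := by
      refine Finset.sum_eq_zero fun d hd => ?_
      rcases A_cases b d with h | h
      · rw [h, zero_mul]
      · rcases A_cases c d with h' | h'
        · rw [h', mul_zero]
        · exact absurd h' (hcon d hd h)
    have h2 := M_eq E hr hb hc hbc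
    rw [h1, mul_zero] at h2
    have : (0 : ℤ) < lam * (k : ℤ) ^ 2 := by positivity
    linarith
  -- a block disjoint from `e`
  obtain ⟨b', hb', heb'⟩ : ∃ b' ∈ B, Disjoint e b' := by
    by_contra hcon
    push Not at hcon
    have h1 : ∑ d ∈ B, A e d = B.card := by
      rw [Finset.sum_congr rfl fun d hd => (show A e d = 1 from by
        rcases A_cases e d with h | h
        · exact absurd (A_zero_iff.1 h) (hcon d hd)
        · exact h)]
      simp
    have h2 : ∑ d ∈ B, A b d + 1 ≤ B.card := by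
      have h3 : (B.card : ℤ) - ∑ d ∈ B, A b d = ∑ d ∈ B, (1 - A b d) := by
        rw [Finset.sum_sub_distrib]; simp
      have h4 : (1 : ℤ) ≤ ∑ d ∈ B, (1 - A b d) := by
        have h5 : ∀ d ∈ B, 0 ≤ 1 - A b d := by
          intro d _
          rcases A_cases b d with h | h <;> rw [h] <;> norm_num
        calc (1 : ℤ) = 1 - A b c := by rw [A_zero_iff.2 hbc]; ring
          _ ≤ _ := Finset.single_le_sum h5 hc
      linarith
    have h3 := T_eq E hr hrk he
    have h4 := T_eq E hr hrk hb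
    have h5 : ∑ d ∈ B, A e d = ∑ d ∈ B, A b d := by
      apply mul_left_cancel₀ hy.ne'
      rw [h3, h4]
    rw [h5] at h1
    linarith
  obtain ⟨c', hc', hc'e, hb'c'⟩ := exists_other E hr hb' he heb'.symm
  -- the kernel vector
  set w : Finset (Fin v) → ℤ := fun d => A b d * A c d - ρ * (if d = b then 1 else 0) -
    ρ * (if d = c then 1 else 0) with hw
  set w' : Finset (Fin v) → ℤ := fun d => A b' d * A c' d - ρ * (if d = b' then 1 else 0) -
    ρ * (if d = c' then 1 else 0) with hw'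
  have hS : ∀ (b c : Finset (Fin v)), b ∈ B → c ∈ B → Disjoint b c → ∀ p,
      ∑ d ∈ B, (A b d * A c d - ρ * (if d = b then 1 else 0) -
        ρ * (if d = c then 1 else 0)) * chi d p = r - 2 * ρ := by
    intro b c hb hc hbc p
    have h1 := N_add E hr hb hc hbc p
    rw [hN b hb p, hN c hc p] at h1
    have h2 : ∑ d ∈ B, ρ * (if d = b then 1 else 0) * chi d p = ρ * chi b p := by
      rw [Finset.sum_eq_single b]
      · simp
      · intro d _ hd; simp [hd]
      · intro h; exact absurd hb h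
    have h3 : ∑ d ∈ B, ρ * (if d = c then 1 else 0) * chi d p = ρ * chi c p := by
      rw [Finset.sum_eq_single c]
      · simp
      · intro d _ hd; simp [hd]
      · intro h; exact absurd hc h
    simp only [sub_mul, Finset.sum_sub_distrib]
    rw [h1, h2, h3]; ring
  have hz : ∀ p, ∑ d ∈ B, (w d - w' d) * chi d p = 0 := by
    intro p
    have h1 := hS b c hb hc hbc p
    have h2 := hS b' c' hb' hc' hb'c' p
    simp only [sub_mul (w _) (w' _), Finset.sum_sub_distrib]
    rw [show ∑ d ∈ B, w d * chi d p = r - 2 * ρ from h1,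
      show ∑ d ∈ B, w' d * chi d p = r - 2 * ρ from h2]
    ring
  have h1 : ∑ d ∈ B, (w d - w' d) * ((e ∩ d).card : ℤ) = 0 := by
    have h2 : ∑ d ∈ B, (w d - w' d) * ((e ∩ d).card : ℤ) =
        ∑ p, chi e p * ∑ d ∈ B, (w d - w' d) * chi d p := by
      simp only [← sum_chi_mul e, Finset.mul_sum]
      rw [Finset.sum_comm]
      refine Finset.sum_congr rfl fun q _ => Finset.sum_congr rfl fun d _ => ?_
      ring
    rw [h2]
    refine Finset.sum_eq_zero fun p _ => ?_
    rw [hz p, mul_zero]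
  have h2 : w e - w' e = 1 := by
    have e1 : e ≠ b := by rintro rfl; rw [A_zero_iff.2 hbc.symm] at hce; omega
    have e2 : e ≠ c := by rintro rfl; rw [A_zero_iff.2 hbc] at hbe; omega
    have e3 : e ≠ b' := by
      rintro rfl
      obtain ⟨p, hp⟩ : e.Nonempty := by
        rw [← Finset.card_pos, E.card_block e he]; exact_mod_cast hk
      exact Finset.disjoint_left.1 heb' hp hp
    have e4 : e ≠ c' := fun h => hc'e h.symm
    simp only [hw, hw', if_neg e1, if_neg e2, if_neg e3, if_neg e4, hbe, hce,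
      A_zero_iff.2 heb'.symm]
    ring
  rw [Finset.sum_congr rfl fun d hd => by rw [inter_eq E he hd]] at h1
  simp only [mul_add, Finset.sum_add_distrib, mul_ite, mul_zero] at h1
  rw [Finset.sum_ite_eq' B e, if_pos he, h2, one_mul] at h1
  have h3 : ∑ d ∈ B, (w d - w' d) * ((y : ℤ) * A e d) = y * ∑ d ∈ B, (w d - w' d) * A e d := by
    rw [Finset.mul_sum]
    refine Finset.sum_congr rfl fun d _ => by ring
  rw [h3] at h1
  exact ⟨1 - ∑ d ∈ B, (w d - w' d) * A e d, by linarith⟩

/-! ### Parameters -/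

lemma params (E : Exceptional v k lam y B) : ∃ m θ : ℤ, (k : ℤ) = y * m ∧ 3 ≤ m ∧ m ≤ y ∧
    1 ≤ θ ∧ 1 ≤ (lam : ℤ) ∧ ((y : ℤ) - 1) * (m + θ) = (m - 1) * (lam - 1) ∧
    (lam : ℤ) * m * (θ - m + 2) = (m - 1) * θ * (θ + 1) ∧
    ((k : ℤ) - 1) * (m * lam + θ + 1) = lam * ((v : ℤ) - 1) := by
  obtain ⟨r, ρ, b, c, hr, hrk, hb, hc, hbc, hρ1, hρr, hρ, hF2⟩ := basic E
  obtain ⟨m, hm⟩ := y_dvd_k E
  have hk : (0 : ℤ) < k := by have := E.lower; omega
  have hy : (0 : ℤ) < y := by have := E.two_le; omega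
  have hr2 : r = m * lam + (ρ - 1) + 1 := by
    apply mul_left_cancel₀ hy.ne'
    rw [hm] at hρ
    linear_combination -hρ
  have hm3 : 3 ≤ m := by
    have h1 : (2 : ℤ) * y < k := by exact_mod_cast E.lower
    rw [hm] at h1
    have : 2 < m := by
      by_contra h
      push Not at h
      nlinarith
    omega
  have hmy : m ≤ y := by
    have h1 : (k : ℤ) < y * (y + 1) := by exact_mod_cast E.upper
    rw [hm] at h1
    by_contra h
    push Not at h
    nlinarith
  have hyeq : (y : ℤ) * (m + (ρ - 1)) = (m - 1) * lam + (ρ - 1) + 1 := by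
    rw [hm] at hρ hF2
    rw [hr2] at hρ hF2
    linear_combination hF2
  have h1 : ((y : ℤ) - 1) * (m + (ρ - 1)) = (m - 1) * (lam - 1) := by
    linear_combination hyeq
  have hlam : 1 ≤ (lam : ℤ) := by
    have h0 : (0 : ℤ) ≤ lam := by positivity
    by_contra h
    have h0' : (lam : ℤ) = 0 := by omega
    rw [h0'] at h1
    have hy2 : (2 : ℤ) ≤ y := by exact_mod_cast E.two_le
    nlinarith
  have hT : ∑ d ∈ B, A b d = m * (r - 1) + 1 := by
    apply mul_left_cancel₀ hy.ne'
    rw [T_eq E hr hrk hb, hm]; ring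
  have hT' : ∑ d ∈ B, A c d = m * (r - 1) + 1 := by
    apply mul_left_cancel₀ hy.ne'
    rw [T_eq E hr hrk hc, hm]; ring
  have hM : ∑ d ∈ B, A b d * A c d = lam * m ^ 2 := by
    have := M_eq E hr hb hc hbc
    rw [hm] at this
    have hy2 : (y : ℤ) ^ 2 ≠ 0 := by positivity
    apply mul_left_cancel₀ hy2
    linear_combination this
  have hB := card_B' E hb hc hbc
  rw [hT, hT', hM] at hB
  have hBv := card_B E hr
  rw [hB] at hBv
  -- `m (r² - lam |B|) = r (m + θ)`
  have h2 : m * (r ^ 2 - lam * (m * (r - 1) + 1 + (m * (r - 1) + 1) - lam * m ^ 2)) =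
      r * (m + (ρ - 1)) := by
    apply mul_left_cancel₀ hy.ne'
    have e1 : (y : ℤ) * (m + (ρ - 1)) = r - lam := by rw [hyeq, hr2]; ring
    have e2 : (lam : ℤ) * ((k : ℤ) * (m * (r - 1) + 1 + (m * (r - 1) + 1) - lam * m ^ 2)) =
        r * ((k - 1) * r + lam) := by
      rw [hBv, hrk]; ring
    rw [hm] at e2
    linear_combination -e2 - r * e1
  have h3 : (lam : ℤ) * m * ((ρ - 1) - m + 2) = (m - 1) * (ρ - 1) * ((ρ - 1) + 1) := by
    rw [hr2] at h2
    linear_combination -h2
  have hθ : 1 ≤ ρ - 1 := by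
    by_contra h
    have h0 : ρ = 1 := by omega
    rw [h0] at h3
    have : (lam : ℤ) * m * (1 - 1 - m + 2) < 0 := by
      have hp : 0 < (lam : ℤ) * m := by positivity
      nlinarith
    rw [h3] at this
    norm_num at this
  refine ⟨m, ρ - 1, hm, hm3, hmy, hθ, hlam, h1, h3, ?_⟩
  rw [← hr2]
  exact hrk

lemma pos_part {m θ lam : ℤ} (hm : 3 ≤ m) (hθ : 1 ≤ θ) (hlam : 1 ≤ lam)
    (h2 : lam * m * (θ - m + 2) = (m - 1) * θ * (θ + 1)) : 1 ≤ θ - m + 2 := by
  by_contra h
  have h' : θ - m + 2 ≤ 0 := by omega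
  have h1 : 0 < (m - 1) * θ * (θ + 1) := by
    have : 0 < m - 1 := by omega
    positivity
  have h3 : 0 < lam * m := by positivity
  nlinarith

lemma range_bound {m θ lam y : ℤ} (hm : 3 ≤ m) (hmy : m ≤ y) (hθ : 1 ≤ θ) (hlam : 1 ≤ lam)
    (h1 : (y - 1) * (m + θ) = (m - 1) * (lam - 1))
    (h2 : lam * m * (θ - m + 2) = (m - 1) * θ * (θ + 1)) :
    θ ^ 2 + (2 * m + 1) * θ ≤ m * (m - 2) * (m + 1) := by
  have h3 := pos_part hm hθ hlam h2
  have h4 : m + θ ≤ lam - 1 := by
    have h5 : (m - 1) * (m + θ) ≤ (m - 1) * (lam - 1) := by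
      rw [← h1]
      have : 0 ≤ m + θ := by omega
      nlinarith
    have : 0 < m - 1 := by omega
    exact le_of_mul_le_mul_left h5 this
  have h6 : (m + θ + 1) * (m * (θ - m + 2)) ≤ lam * (m * (θ - m + 2)) := by
    apply mul_le_mul_of_nonneg_right (by omega)
    have : 0 ≤ m := by omega
    have : 0 ≤ θ - m + 2 := by omega
    positivity
  nlinarith

lemma case_one {m θ lam y t : ℤ} (hm : 3 ≤ m) (hmy : m ≤ y) (hθ : 1 ≤ θ) (hlam : 1 ≤ lam)
    (h1 : (y - 1) * (m + θ) = (m - 1) * (lam - 1))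
    (h2 : lam * m * (θ - m + 2) = (m - 1) * θ * (θ + 1)) (ht : θ = m * t) : False := by
  have hr := range_bound hm hmy hθ hlam h1 h2
  subst ht
  have hm0 : (0 : ℤ) < m := by omega
  have ht1 : 1 ≤ t := by
    by_contra h
    have : t ≤ 0 := by omega
    nlinarith
  have h3 : lam * (m * t - m + 2) = (m - 1) * t * (m * t + 1) := by
    apply mul_left_cancel₀ hm0.ne'
    linear_combination h2
  have h4 : m ∣ t + 2 := by
    refine ⟨(m - 1) * t * t + t - lam * (t - 1) - 2 * ((lam - 1) - (y - 1) * (1 + t)), ?_⟩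
    linear_combination h3 - 2 * h1
  have h5 : m ≤ t + 2 := Int.le_of_dvd (by omega) h4
  have h6 : m * t ^ 2 + (2 * m + 1) * t ≤ (m - 2) * (m + 1) := by
    have : m * (m * t ^ 2 + (2 * m + 1) * t) ≤ m * ((m - 2) * (m + 1)) := by nlinarith
    exact le_of_mul_le_mul_left this hm0
  have h7 : m - 2 ≤ t := by omega
  nlinarith [mul_nonneg hm0.le (sq_nonneg t), mul_nonneg (by omega : (0:ℤ) ≤ t - (m - 2))
    (by omega : (0:ℤ) ≤ m)]

lemma case_two {m θ lam y t : ℤ} (hm : 3 ≤ m) (hmy : m ≤ y) (hθ : 1 ≤ θ) (hlam : 1 ≤ lam)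
    (h1 : (y - 1) * (m + θ) = (m - 1) * (lam - 1))
    (h2 : lam * m * (θ - m + 2) = (m - 1) * θ * (θ + 1)) (ht : θ + 1 = m * t) : False := by
  have hr := range_bound hm hmy hθ hlam h1 h2
  have hθ' : θ = m * t - 1 := by omega
  subst hθ'
  have hm0 : (0 : ℤ) < m := by omega
  have ht1 : 1 ≤ t := by
    by_contra h
    have : t ≤ 0 := by omega
    nlinarith
  have h3 : lam * (m * (t - 1) + 1) = (m - 1) * (m * t - 1) * t := by
    apply mul_left_cancel₀ hm0.ne'
    linear_combination h2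
  have h4 : m * t ^ 2 - t + 2 * m * t ≤ m ^ 2 - m := by
    have : m * (m * t ^ 2 - t + 2 * m * t) ≤ m * (m ^ 2 - m) := by nlinarith
    exact le_of_mul_le_mul_left this hm0
  have h5 : t ^ 2 + 2 * t ≤ m - 1 := by
    by_contra h
    have h6 : m ≤ t ^ 2 + 2 * t := by omega
    have h7 : m * m ≤ m * (t ^ 2 + 2 * t) := mul_le_mul_of_nonneg_left h6 hm0.le
    have h8 : m ≤ t := by nlinarith
    have h9 : m * t ≤ m * t ^ 2 := by nlinarith
    nlinarith
  rcases (by omega : t = 1 ∨ 2 ≤ t) with ht' | ht'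
  · subst ht'
    have h6 : lam = (m - 1) ^ 2 := by linear_combination h3
    have h7 : (2 * m - 1) ∣ 3 := by
      refine ⟨8 * (y - 1) - (2 * m - 1) ^ 2 + 3 * (2 * m - 1) + 1, ?_⟩
      rw [h6] at h1
      linear_combination -8 * h1
    have := Int.le_of_dvd (by norm_num) h7
    omega
  · set s := lam - (m - 1) * (t + 1) + 2 with hs
    have h6 : s * (m * (t - 1) + 1) = m ^ 2 - 4 * m + 3 + 2 * t := by
      apply mul_left_cancel₀ hm0.ne'
      rw [hs]
      linear_combination m * h3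
    have hD : 0 < m * (t - 1) + 1 := by nlinarith
    have hs0 : 0 < s := by
      by_contra h
      have : s ≤ 0 := by omega
      have h7 : s * (m * (t - 1) + 1) ≤ 0 := mul_nonpos_of_nonpos_of_nonneg this hD.le
      nlinarith
    have hsm : s < m := by
      by_contra h
      have h7 : m * (m * (t - 1) + 1) ≤ s * (m * (t - 1) + 1) :=
        mul_le_mul_of_nonneg_right (by omega) hD.le
      rw [h6] at h7
      have h8 : m * m ≤ m * (m * (t - 1)) := by nlinarith
      nlinarith
    have h23 : 2 * t + 3 < m := by nlinarith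
    have hdv : m ∣ s - (2 * t + 3) := ⟨m - 4 - s * (t - 1), by linear_combination h6⟩
    have hs3 : s = 2 * t + 3 := by
      have := Int.eq_zero_of_abs_lt_dvd hdv (by rw [abs_lt]; constructor <;> omega)
      omega
    have hm2 : m = 2 * t ^ 2 + t + 1 := by
      rw [hs3] at h6
      have : m * (m - (2 * t ^ 2 + t + 1)) = 0 := by linear_combination -h6
      rcases mul_eq_zero.1 this with h | h
      · omega
      · omega
    have hlam2 : lam = (2 * t + 1) * (t ^ 2 + t + 1) := by
      have h7 : s = lam - (m - 1) * (t + 1) + 2 := hs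
      rw [hs3, hm2] at h7
      linear_combination -h7
    have h8 : (y - 1) * (2 * t ^ 2 + 3 * t + 2) = t * (2 * t + 1) * (2 * t ^ 2 + 3 * t + 3) := by
      have ht0 : t ≠ 0 := by omega
      apply mul_left_cancel₀ ht0
      rw [hlam2, hm2] at h1
      linear_combination h1
    have h9 : t * (2 * t + 1) = (y - 1 - t * (2 * t + 1)) * (2 * t ^ 2 + 3 * t + 2) := by
      linear_combination -h8
    rcases (by omega : y - 1 - t * (2 * t + 1) ≤ 0 ∨ 1 ≤ y - 1 - t * (2 * t + 1)) with h | h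
    · have : (y - 1 - t * (2 * t + 1)) * (2 * t ^ 2 + 3 * t + 2) ≤ 0 :=
        mul_nonpos_of_nonpos_of_nonneg h (by positivity)
      nlinarith
    · have : 1 * (2 * t ^ 2 + 3 * t + 2) ≤
          (y - 1 - t * (2 * t + 1)) * (2 * t ^ 2 + 3 * t + 2) :=
        mul_le_mul_of_nonneg_right h (by positivity)
      nlinarith

lemma v_bound {m θ lam y k v : ℤ} (hm : 3 ≤ m) (hmy : m ≤ y) (hθ : 1 ≤ θ) (hlam : 1 ≤ lam)
    (hk : k = y * m)
    (h1 : (y - 1) * (m + θ) = (m - 1) * (lam - 1))
    (h2 : lam * m * (θ - m + 2) = (m - 1) * θ * (θ + 1))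
    (h3 : (k - 1) * (m * lam + θ + 1) = lam * (v - 1)) : v ≤ 5 * m ^ 6 := by
  have hr := range_bound hm hmy hθ hlam h1 h2
  have hp := pos_part hm hθ hlam h2
  have hm0 : (0 : ℤ) < m := by omega
  -- `θ ≤ m ^ 2`
  have a1 : θ ≤ m ^ 2 := by
    by_contra h
    have h4 : m ^ 2 + 1 ≤ θ := by omega
    have h5 : (m ^ 2) * (m ^ 2) ≤ θ ^ 2 := by nlinarith
    have h6 : m * (m - 2) * (m + 1) ≤ m ^ 2 * m ^ 2 := by nlinarith [mul_pos hm0 hm0]
    nlinarith
  -- `lam ≤ θ (θ + 1)`
  have a2 : lam ≤ θ * (θ + 1) := by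
    have h4 : lam * m * 1 ≤ lam * m * (θ - m + 2) :=
      mul_le_mul_of_nonneg_left hp (by positivity)
    rw [h2] at h4
    have h5 : (m - 1) * θ * (θ + 1) ≤ m * (θ * (θ + 1)) := by nlinarith
    have h6 : m * lam ≤ m * (θ * (θ + 1)) := by linarith
    exact le_of_mul_le_mul_left h6 hm0
  have a3 : lam ≤ 2 * m ^ 4 := by
    have h4 : θ * (θ + 1) ≤ m ^ 2 * (m ^ 2 + 1) := by nlinarith
    have h5 : m ^ 2 ≤ m ^ 4 := by nlinarith [mul_pos hm0 hm0, sq_nonneg (m ^ 2)]
    nlinarith
  -- `y ≤ lam`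
  have a4 : y ≤ lam := by
    have h4 : (m + θ) * (y - 1) ≤ (m + θ) * (lam - 1) := by
      have : (m - 1) * (lam - 1) ≤ (m + θ) * (lam - 1) :=
        mul_le_mul_of_nonneg_right (by omega) (by omega)
      linarith
    have h5 := le_of_mul_le_mul_left h4 (by omega)
    omega
  -- `v - 1 ≤ m r`
  have a5 : v - 1 ≤ m * (m * lam + θ + 1) := by
    have h4 : (k - 1) * (m * lam + θ + 1) ≤ lam * (m * (m * lam + θ + 1)) := by
      have h5 : k - 1 ≤ lam * m := by
        rw [hk]
        have : y * m ≤ lam * m := mul_le_mul_of_nonneg_right a4 hm0.le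
        omega
      have h6 : 0 ≤ m * lam + θ + 1 := by positivity
      have := mul_le_mul_of_nonneg_right h5 h6
      linarith
    rw [h3] at h4
    exact le_of_mul_le_mul_left h4 (by omega)
  have a6 : m * lam + θ + 1 ≤ 4 * m ^ 5 := by
    have h4 : m * lam ≤ m * (2 * m ^ 4) := mul_le_mul_of_nonneg_left a3 hm0.le
    have h5 : m ^ 2 + 1 ≤ 2 * m ^ 5 := by
      have h6 : m ^ 2 ≤ m ^ 5 := pow_le_pow_right₀ (by omega) (by norm_num)
      have h7 : 1 ≤ m ^ 5 := one_le_pow₀ (by omega)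
      linarith
    nlinarith
  have a7 : m * (m * lam + θ + 1) ≤ m * (4 * m ^ 5) := mul_le_mul_of_nonneg_left a6 hm0.le
  have a8 : 1 ≤ m ^ 6 := one_le_pow₀ (by omega)
  nlinarith

/-- For every exceptional triangle-free quasi-symmetric design: `y` divides `k`, the quotient
`k / y` is not a prime power, and `v ≤ 5 (k / y)^6`. -/
theorem primePower_result (v k lam y : ℕ) (B : Finset (Finset (Fin v)))
    (E : Exceptional v k lam y B) :
    y ∣ k ∧ ¬ IsPrimePow (k / y) ∧ v ≤ 5 * (k / y) ^ 6 := by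
  have hdvd : y ∣ k := by exact_mod_cast y_dvd_k E
  obtain ⟨m, θ, hk, hm, hmy, hθ, hlam, h1, h2, h3⟩ := params E
  have hy : 0 < y := by have := E.two_le; omega
  have hM : ((k / y : ℕ) : ℤ) = m := by
    rw [Int.natCast_div, hk]
    have : (y : ℤ) ≠ 0 := by exact_mod_cast hy.ne'
    exact Int.mul_ediv_cancel_left m this
  refine ⟨hdvd, ?_, ?_⟩
  · intro hpp
    set M := k / y with hMdef
    obtain ⟨T, hT⟩ : ∃ T : ℕ, (T : ℤ) = θ := ⟨θ.toNat, Int.toNat_of_nonneg (by omega)⟩
    have hd : (m : ℤ) ∣ θ * (θ + 1) := by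
      have h4 : m ∣ (m - 1) * (θ * (θ + 1)) := ⟨lam * (θ - m + 2), by linear_combination -h2⟩
      have h5 : IsCoprime m (m - 1) := ⟨1, -1, by ring⟩
      exact h5.dvd_of_dvd_mul_left h4
    rw [← hM, ← hT] at hd
    have hd' : M ∣ T * (T + 1) := by exact_mod_cast hd
    have hco : Nat.Coprime T (T + 1) := by simp
    rcases (hco.isPrimePow_dvd_mul hpp).1 hd' with h | h
    · have h6 : (M : ℤ) ∣ T := by exact_mod_cast h
      rw [hM, hT] at h6
      obtain ⟨t, ht⟩ := h6
      exact case_one hm hmy hθ hlam h1 h2 ht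
    · have h6 : (M : ℤ) ∣ (T : ℤ) + 1 := by exact_mod_cast h
      rw [hM, hT] at h6
      obtain ⟨t, ht⟩ := h6
      exact case_two hm hmy hθ hlam h1 h2 ht
  · have := v_bound hm hmy hθ hlam hk h1 h2 h3
    rw [← hM] at this
    exact_mod_cast this

end Pool.Agent.Helper677.QSD
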