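import Mathlib

open MeasureTheory Real FourierTransform SchwartzMap
open scoped ENNReal

namespace Pool.H677.Rel

section L2

variable {E : Type*} [NormedAddCommGroup E] [InnerProductSpace ℝ E] [FiniteDimensional ℝ E]
  [MeasurableSpace E] [BorelSpace E]

/-- For an integrable square integrable function the `L²` Fourier transform is given by the
Fourier integral. -/
theorem lp_fourier_eq {f F : E → ℂ} (hf1 : Integrable f) (hf2 : MemLp f 2 (volume : Measure E))
    (hF : ∀ w, 𝓕 f w = F w) (hF2 : MemLp F 2 (volume : Measure E)) :
    𝓕 (hf2.toLp f) = hF2.toLp F := by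
  have hinj : Function.Injective
      (Lp.toTemperedDistributionCLM ℂ (volume : Measure E) 2) := by
    have := Lp.ker_toTemperedDistributionCLM_eq_bot (F := ℂ) (μ := (volume : Measure E)) (p := 2)
    exact LinearMap.ker_eq_bot.1 this
  apply hinj
  simp only [Lp.toTemperedDistributionCLM_apply]
  rw [← Lp.fourier_toTemperedDistribution_eq]
  ext g
  rw [TemperedDistribution.fourier_apply]
  simp only [Lp.toTemperedDistribution_apply]
  have h1 : ∫ x, (𝓕 g) x • (hf2.toLp f) x = ∫ x, (𝓕 g) x • f x := by
    apply integral_congr_ae
    filter_upwards [hf2.coeFn_toLp] with x hx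
    rw [hx]
  have h2 : ∫ x, g x • (hF2.toLp F) x = ∫ x, g x • F x := by
    apply integral_congr_ae
    filter_upwards [hF2.coeFn_toLp] with x hx
    rw [hx]
  rw [h1, h2]
  have h3 := VectorFourier.integral_fourierIntegral_smul_eq_flip (L := innerₗ E)
    (μ := (volume : Measure E)) (ν := (volume : Measure E))
    continuous_fourierChar continuous_inner g.integrable hf1
  have h4 : ∀ x, VectorFourier.fourierIntegral fourierChar (volume : Measure E)
      (innerₗ E).flip f x = F x := by
    intro x
    rw [← hF x]
    simp only [flip_innerₗ]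
    rfl
  have h5 : ∀ x, VectorFourier.fourierIntegral fourierChar (volume : Measure E)
      (innerₗ E) (⇑g) x = (𝓕 g) x := by
    intro x; rfl
  calc ∫ x, (𝓕 g) x • f x
      = ∫ x, VectorFourier.fourierIntegral fourierChar (volume : Measure E)
          (innerₗ E) (⇑g) x • f x := by simp only [h5]
    _ = ∫ x, g x • VectorFourier.fourierIntegral fourierChar (volume : Measure E)
      (innerₗ E).flip f x := h3
    _ = ∫ x, g x • F x := by simp only [h4]

end L2

end Pool.H677.Rel
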