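import Pool.Agent.Helper677.RelKin
import Pool.Agent.Helper677.RelFourier

open MeasureTheory Real Set Module FourierTransform
open scoped ENNReal

set_option linter.unusedSectionVars false

namespace Pool.H677.Rel

variable {E : Type*} [NormedAddCommGroup E] [InnerProductSpace ℝ E] [FiniteDimensional ℝ E]
  [MeasurableSpace E] [BorelSpace E]

/-- the trial function -/
noncomputable def g (a : ℝ) (x : E) : ℂ := (((1 + ‖x‖ ^ 2) ^ (-a) : ℝ) : ℂ)

/-- its Fourier transform is `K / Γ(a)` -/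
noncomputable def K (a : ℝ) (ξ : E) : ℝ≥0∞ :=
  ∫⁻ s in Ioi (0:ℝ), ENNReal.ofReal (ker a ξ s)

theorem meas_K (a : ℝ) : Measurable (K (E := E) a) :=
  (meas_ker a).ennreal_ofReal.lintegral_prod_right'

theorem K_le {a : ℝ} (ha : 3 / 2 < a) (ξ : E) :
    K a ξ ≤ ENNReal.ofReal (π ^ (3 / 2 : ℝ) * Gamma (a - 3 / 2)) := by
  have hG : 0 < Gamma (a - 3 / 2) := Gamma_pos_of_pos (by linarith)
  have h := lint_gamma (b := a - 3 / 2) (r := 1) (by linarith) one_pos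
  rw [one_rpow, one_mul] at h
  rw [ENNReal.ofReal_mul (by positivity), ← h, ← lintegral_const_mul _ (by fun_prop)]
  unfold K
  apply setLIntegral_mono' measurableSet_Ioi
  intro s hs
  have hs' : (0:ℝ) < s := hs
  rw [← ENNReal.ofReal_mul (by positivity)]
  apply ENNReal.ofReal_le_ofReal
  unfold ker
  have e1 : exp (-π ^ 2 * ‖ξ‖ ^ 2 / s) ≤ 1 := by
    rw [exp_le_one_iff]
    apply div_nonpos_of_nonpos_of_nonneg _ hs'.le
    nlinarith [mul_nonneg (sq_nonneg π) (sq_nonneg ‖ξ‖)]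
  have e2 : s ^ (a - 1) * (π / s) ^ (3 / 2 : ℝ) = π ^ (3 / 2 : ℝ) * s ^ (a - 3 / 2 - 1) := by
    rw [div_rpow pi_nonneg hs'.le]
    have : s ^ (a - 3 / 2 - 1) = s ^ (a - 1) / s ^ (3 / 2 : ℝ) := by
      rw [← rpow_sub hs']; congr 1; ring
    rw [this]; ring
  calc s ^ (a - 1) * exp (-s) * (π / s) ^ (3 / 2 : ℝ) * exp (-π ^ 2 * ‖ξ‖ ^ 2 / s)
      ≤ s ^ (a - 1) * exp (-s) * (π / s) ^ (3 / 2 : ℝ) * 1 := by gcongr
    _ = (s ^ (a - 1) * (π / s) ^ (3 / 2 : ℝ)) * exp (-s) := by ring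
    _ = π ^ (3 / 2 : ℝ) * (s ^ (a - 3 / 2 - 1) * exp (-(1 * s))) := by rw [e2, one_mul]; ring

theorem K_ne_top {a : ℝ} (ha : 3 / 2 < a) (ξ : E) : K a ξ ≠ ∞ :=
  ((K_le ha ξ).trans_lt ENNReal.ofReal_lt_top).ne

theorem lint_K (hE : finrank ℝ E = 3) {a : ℝ} (ha : 3 / 2 < a) :
    ∫⁻ ξ : E, K a ξ = ENNReal.ofReal (Gamma a) := by
  unfold K
  rw [lintegral_lintegral_swap (meas_ker a).ennreal_ofReal.aemeasurable]
  have h := lint_gamma (b := a) (r := 1) (by linarith) one_pos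
  rw [one_rpow, one_mul] at h
  rw [← h]
  apply setLIntegral_congr_fun measurableSet_Ioi
  intro s hs
  have hs' : (0:ℝ) < s := hs
  have h1 : ∀ ξ : E, ENNReal.ofReal (ker a ξ s) =
      ENNReal.ofReal (s ^ (a - 1) * exp (-s) * (π / s) ^ (3 / 2 : ℝ)) *
        ENNReal.ofReal (exp (-(π ^ 2 / s) * ‖ξ‖ ^ 2)) := by
    intro ξ
    rw [← ENNReal.ofReal_mul (by positivity)]
    unfold ker
    congr 3
    ring
  simp only [h1]
  rw [lintegral_const_mul _ (by fun_prop), lint_gauss hE (by positivity),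
    ← ENNReal.ofReal_mul (by positivity)]
  congr 1
  have e1 : (π / s) ^ (3 / 2 : ℝ) * (π / (π ^ 2 / s)) ^ (3 / 2 : ℝ) = 1 := by
    rw [← mul_rpow (by positivity) (by positivity)]
    have : π / s * (π / (π ^ 2 / s)) = 1 := by
      have := pi_ne_zero
      have := hs'.ne'
      field_simp
    rw [this, one_rpow]
  calc s ^ (a - 1) * exp (-s) * (π / s) ^ (3 / 2 : ℝ) * (π / (π ^ 2 / s)) ^ (3 / 2 : ℝ)
      = s ^ (a - 1) * exp (-s) * ((π / s) ^ (3 / 2 : ℝ) * (π / (π ^ 2 / s)) ^ (3 / 2 : ℝ)) := by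
        ring
    _ = _ := by rw [e1, one_mul, mul_one]

/-- the real Fourier transform of the trial function -/
noncomputable def h (a : ℝ) (ξ : E) : ℂ := ((1 / Gamma a * (K a ξ).toReal : ℝ) : ℂ)

theorem memLp_h (hE : finrank ℝ E = 3) {a : ℝ} (ha : 3 / 2 < a) :
    MemLp (h (E := E) a) 2 volume := by
  have hG : 0 < Gamma a := Gamma_pos_of_pos (by linarith)
  have hm : Measurable (h (E := E) a) := by
    unfold h
    exact Complex.measurable_ofReal.comp ((meas_K a).ennreal_toReal.const_mul _)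
  rw [memLp_two_iff_integrable_sq_norm hm.aestronglyMeasurable]
  have hint : Integrable (fun ξ : E => (K a ξ).toReal) := by
    apply integrable_toReal_of_lintegral_ne_top (meas_K a).aemeasurable
    rw [lint_K hE ha]; exact ENNReal.ofReal_ne_top
  refine (hint.const_mul ((1 / Gamma a) ^ 2 * (π ^ (3 / 2 : ℝ) * Gamma (a - 3 / 2)))).mono'
    (hm.norm.pow_const 2).aestronglyMeasurable (Filter.Eventually.of_forall fun ξ => ?_)
  have h0 : 0 ≤ (K a ξ).toReal := ENNReal.toReal_nonneg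
  have hG' : 0 < Gamma (a - 3 / 2) := Gamma_pos_of_pos (by linarith)
  have h1 : (K a ξ).toReal ≤ π ^ (3 / 2 : ℝ) * Gamma (a - 3 / 2) := by
    have := ENNReal.toReal_mono ENNReal.ofReal_ne_top (K_le ha ξ)
    rwa [ENNReal.toReal_ofReal (mul_nonneg (by positivity) hG'.le)] at this
  have h2 : ‖h a ξ‖ = 1 / Gamma a * (K a ξ).toReal := by
    unfold h
    rw [Complex.norm_real, norm_of_nonneg (by positivity)]
  rw [h2, norm_of_nonneg (by positivity)]
  have h3 : (K a ξ).toReal ^ 2 ≤ π ^ (3 / 2 : ℝ) * Gamma (a - 3 / 2) * (K a ξ).toReal := by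
    rw [sq]; exact mul_le_mul_of_nonneg_right h1 h0
  calc (1 / Gamma a * (K a ξ).toReal) ^ 2 = (1 / Gamma a) ^ 2 * (K a ξ).toReal ^ 2 := by ring
    _ ≤ (1 / Gamma a) ^ 2 * (π ^ (3 / 2 : ℝ) * Gamma (a - 3 / 2) * (K a ξ).toReal) := by gcongr
    _ = _ := by ring

theorem norm_g (a : ℝ) (x : E) : ‖g a x‖ = (1 + ‖x‖ ^ 2) ^ (-a) := by
  unfold g
  rw [Complex.norm_real, norm_of_nonneg (by positivity)]

theorem cont_g (a : ℝ) : Continuous (g (E := E) a) := by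
  unfold g
  refine Complex.continuous_ofReal.comp ?_
  refine Continuous.rpow_const (by fun_prop) (fun x => Or.inl ?_)
  positivity

theorem integrable_g (hE : finrank ℝ E = 3) {a : ℝ} (ha : 3 / 2 < a) :
    Integrable (g (E := E) a) := by
  refine ⟨(cont_g a).aestronglyMeasurable, ?_⟩
  rw [HasFiniteIntegral]
  have h1 : ∀ x : E, ‖g a x‖ₑ = ENNReal.ofReal ((1 + ‖x‖ ^ 2) ^ (-a)) := by
    intro x
    rw [← ofReal_norm, norm_g]
  simp only [h1]
  rw [lint_pow hE ha]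
  exact ENNReal.ofReal_lt_top

theorem sq_norm_g (a : ℝ) (x : E) : ‖g a x‖ ^ 2 = (1 + ‖x‖ ^ 2) ^ (-(2 * a)) := by
  rw [norm_g, ← rpow_natCast, ← rpow_mul (by positivity)]
  congr 1; push_cast; ring

theorem memLp_g (hE : finrank ℝ E = 3) {a : ℝ} (ha : 3 / 2 < a) :
    MemLp (g (E := E) a) 2 volume := by
  rw [memLp_two_iff_integrable_sq_norm (cont_g a).aestronglyMeasurable]
  refine ⟨((cont_g a).norm.pow 2).aestronglyMeasurable, ?_⟩
  rw [HasFiniteIntegral]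
  have h1 : ∀ x : E, ‖‖g a x‖ ^ 2‖ₑ = ENNReal.ofReal ((1 + ‖x‖ ^ 2) ^ (-(2 * a))) := by
    intro x
    rw [← ofReal_norm, norm_of_nonneg (by positivity), sq_norm_g]
  simp only [h1]
  rw [lint_pow hE (by linarith)]
  exact ENNReal.ofReal_lt_top

theorem fourier_g (hE : finrank ℝ E = 3) {a : ℝ} (ha : 3 / 2 < a) (ξ : E) :
    𝓕 (g (E := E) a) ξ = h a ξ := by
  have ha0 : 0 < a := by linarith
  have hG : 0 < Gamma a := Gamma_pos_of_pos ha0
  rw [Real.fourier_eq]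
  -- the layers
  have hlay : ∀ v : E, g a v = ((1 / Gamma a : ℝ) : ℂ) *
      ∫ s in Ioi (0:ℝ), ((s ^ (a - 1) * exp (-((1 + ‖v‖ ^ 2) * s)) : ℝ) : ℂ) := by
    intro v
    rw [integral_complex_ofReal, int_gamma ha0 (by positivity), ← Complex.ofReal_mul]
    unfold g
    congr 1
    field_simp
  have h1 : ∀ v : E, 𝐞 (-inner ℝ v ξ) • g a v = ((1 / Gamma a : ℝ) : ℂ) *
      ∫ s in Ioi (0:ℝ), 𝐞 (-inner ℝ v ξ) •
        ((s ^ (a - 1) * exp (-((1 + ‖v‖ ^ 2) * s)) : ℝ) : ℂ) := by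
    intro v
    rw [hlay v]
    simp only [Circle.smul_def, smul_eq_mul]
    rw [integral_const_mul]
    ring
  simp only [h1]
  rw [integral_const_mul]
  have hint : Integrable (Function.uncurry fun (v : E) (s : ℝ) => 𝐞 (-inner ℝ v ξ) •
        ((s ^ (a - 1) * exp (-((1 + ‖v‖ ^ 2) * s)) : ℝ) : ℂ))
        ((volume : Measure E).prod (volume.restrict (Ioi (0:ℝ)))) := by
    have hmeas : Measurable (Function.uncurry fun (v : E) (s : ℝ) => 𝐞 (-inner ℝ v ξ) •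
        ((s ^ (a - 1) * exp (-((1 + ‖v‖ ^ 2) * s)) : ℝ) : ℂ)) := by
      simp only [Circle.smul_def, smul_eq_mul]
      apply Measurable.mul
      · have : Continuous fun p : E × ℝ => ((𝐞 (-inner ℝ p.1 ξ) : Circle) : ℂ) := by
          fun_prop
        exact this.measurable
      · exact Complex.measurable_ofReal.comp (meas_layer a)
    refine ⟨hmeas.aestronglyMeasurable, ?_⟩
    rw [HasFiniteIntegral, lintegral_prod _ hmeas.enorm.aemeasurable]
    have h2 : ∀ v : E, ∫⁻ s in Ioi (0:ℝ), ‖Function.uncurry (fun (v : E) (s : ℝ) =>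
        𝐞 (-inner ℝ v ξ) •
        ((s ^ (a - 1) * exp (-((1 + ‖v‖ ^ 2) * s)) : ℝ) : ℂ)) (v, s)‖ₑ =
        ∫⁻ s in Ioi (0:ℝ), ENNReal.ofReal (s ^ (a - 1) * exp (-((1 + ‖v‖ ^ 2) * s))) := by
      intro v
      apply setLIntegral_congr_fun measurableSet_Ioi
      intro s hs
      have hs' : (0:ℝ) < s := hs
      simp only [Function.uncurry]
      rw [← ofReal_norm, Circle.norm_smul, Complex.norm_real, norm_of_nonneg (by positivity)]
    simp only [h2]
    rw [lint_layer_swap hE ha]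
    exact ENNReal.ofReal_lt_top
  rw [integral_integral_swap hint]
  unfold h
  rw [Complex.ofReal_mul]
  congr 1
  have h3 : ∀ s ∈ Ioi (0:ℝ), ∫ v : E, 𝐞 (-inner ℝ v ξ) •
        ((s ^ (a - 1) * exp (-((1 + ‖v‖ ^ 2) * s)) : ℝ) : ℂ) = ((ker a ξ s : ℝ) : ℂ) := by
    intro s hs
    have hs' : (0:ℝ) < s := hs
    have h4 := fourier_gaussian_innerProductSpace (V := E) (b := (s : ℂ)) (by simpa using hs') ξ
    rw [Real.fourier_eq, hE] at h4
    have h5 : ∀ v : E, 𝐞 (-inner ℝ v ξ) •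
        ((s ^ (a - 1) * exp (-((1 + ‖v‖ ^ 2) * s)) : ℝ) : ℂ) =
        ((s ^ (a - 1) * exp (-s) : ℝ) : ℂ) * (𝐞 (-inner ℝ v ξ) •
          Complex.exp (-(s : ℂ) * (‖v‖ : ℂ) ^ 2)) := by
      intro v
      simp only [Circle.smul_def, smul_eq_mul]
      have e1 : ((s ^ (a - 1) * exp (-((1 + ‖v‖ ^ 2) * s)) : ℝ) : ℂ) =
          ((s ^ (a - 1) * exp (-s) : ℝ) : ℂ) * Complex.exp (-(s : ℂ) * (‖v‖ : ℂ) ^ 2) := by
        have : Complex.exp (-(s : ℂ) * (‖v‖ : ℂ) ^ 2) = ((exp (-s * ‖v‖ ^ 2) : ℝ) : ℂ) := by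
          push_cast; ring_nf
        rw [this, ← Complex.ofReal_mul, mul_assoc, ← exp_add]
        congr 4
        ring
      rw [e1]; ring
    simp only [h5]
    rw [integral_const_mul, h4]
    unfold ker
    have e2 : ((π : ℂ) / (s : ℂ)) ^ (((3 : ℕ) : ℂ) / 2) = (((π / s) ^ (3 / 2 : ℝ) : ℝ) : ℂ) := by
      rw [Complex.ofReal_cpow (by positivity)]
      push_cast
      rfl
    have e3 : Complex.exp (-(π:ℂ) ^ 2 * (‖ξ‖ : ℂ) ^ 2 / (s : ℂ)) =
        ((exp (-π ^ 2 * ‖ξ‖ ^ 2 / s) : ℝ) : ℂ) := by push_cast; rfl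
    rw [e2, e3]
    push_cast
    ring
  rw [setIntegral_congr_fun measurableSet_Ioi h3, integral_complex_ofReal]
  congr 1
  rw [integral_eq_lintegral_of_nonneg_ae]
  · rfl
  · filter_upwards [ae_restrict_mem measurableSet_Ioi] with s hs
    exact ker_nonneg a ξ hs
  · have : Measurable fun s : ℝ => ker a ξ s :=
      (meas_ker a).comp (measurable_const.prodMk measurable_id)
    exact this.aestronglyMeasurable

end Pool.H677.Rel
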