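import Mathlib

open MeasureTheory Real Set Module
open scoped ENNReal

set_option linter.unusedSectionVars false

namespace Pool.H677.Rel

/-- passing from an integral of a nonnegative function with nonzero value to the `lintegral` -/
theorem lint_of_int {α : Type*} [MeasurableSpace α] {μ : Measure α} {f : α → ℝ} {c : ℝ}
    (hf : ∀ᵐ x ∂μ, 0 ≤ f x) (hI : ∫ x, f x ∂μ = c) (hc : c ≠ 0) :
    ∫⁻ x, ENNReal.ofReal (f x) ∂μ = ENNReal.ofReal c := by
  have hint : Integrable f μ := by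
    by_contra h
    exact hc (by rw [← hI, integral_undef h])
  rw [← hI, ofReal_integral_eq_lintegral_ofReal hint hf]

theorem int_of_int {α : Type*} [MeasurableSpace α] {μ : Measure α} {f : α → ℝ} {c : ℝ}
    (hI : ∫ x, f x ∂μ = c) (hc : c ≠ 0) : Integrable f μ := by
  by_contra h
  exact hc (by rw [← hI, integral_undef h])

theorem int_gamma {b r : ℝ} (hb : 0 < b) (hr : 0 < r) :
    ∫ s in Ioi (0:ℝ), s ^ (b - 1) * exp (-(r * s)) = r ^ (-b) * Gamma b := by
  rw [integral_rpow_mul_exp_neg_mul_Ioi hb hr, one_div, inv_rpow hr.le, rpow_neg hr.le]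

theorem gamma_val_ne {b r : ℝ} (hb : 0 < b) (hr : 0 < r) : r ^ (-b) * Gamma b ≠ 0 :=
  (mul_pos (rpow_pos_of_pos hr _) (Gamma_pos_of_pos hb)).ne'

theorem lint_gamma {b r : ℝ} (hb : 0 < b) (hr : 0 < r) :
    ∫⁻ s in Ioi (0:ℝ), ENNReal.ofReal (s ^ (b - 1) * exp (-(r * s))) =
      ENNReal.ofReal (r ^ (-b) * Gamma b) := by
  refine lint_of_int ?_ (int_gamma hb hr) (gamma_val_ne hb hr)
  filter_upwards [ae_restrict_mem measurableSet_Ioi] with s hs
  have : (0:ℝ) < s := hs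
  positivity

section E

variable {E : Type*} [NormedAddCommGroup E] [InnerProductSpace ℝ E] [FiniteDimensional ℝ E]
  [MeasurableSpace E] [BorelSpace E]

theorem lint_gauss (hE : finrank ℝ E = 3) {s : ℝ} (hs : 0 < s) :
    ∫⁻ x : E, ENNReal.ofReal (exp (-s * ‖x‖ ^ 2)) = ENNReal.ofReal ((π / s) ^ (3 / 2 : ℝ)) := by
  have h := GaussianFourier.integral_rexp_neg_mul_sq_norm (V := E) hs
  rw [hE] at h
  have h' : ∫ x : E, exp (-s * ‖x‖ ^ 2) = (π / s) ^ (3 / 2 : ℝ) := by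
    rw [h]; norm_num
  exact lint_of_int (Filter.Eventually.of_forall fun x => by positivity) h'
    (by positivity)

theorem int_norm_gauss (hE : finrank ℝ E = 3) {c : ℝ} (hc : 0 < c) :
    ∫ x : E, 2 * π * ‖x‖ * exp (-c * ‖x‖ ^ 2) = 4 * π ^ 2 / c ^ 2 := by
  have hnt : Nontrivial E := Module.nontrivial_of_finrank_pos (R := ℝ) (by omega)
  have h := integral_fun_norm_addHaar (volume : Measure E)
    (fun r : ℝ => 2 * π * r * exp (-c * r ^ 2))
  rw [h, hE]
  have hball : (volume : Measure E).real (Metric.ball 0 1) = 4 * π / 3 := by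
    rw [Measure.real, InnerProductSpace.volume_ball_of_dim_odd (k := 1) (by omega)]
    rw [hE]
    simp only [ENNReal.ofReal_one, one_pow, one_mul]
    rw [ENNReal.toReal_ofReal (by positivity)]
    norm_num [Nat.doubleFactorial]
    ring
  have h3 := integral_rpow_mul_exp_neg_mul_rpow (p := 2) (q := 3) (b := c) (by norm_num)
    (by norm_num) hc
  have h4 : ∫ y in Ioi (0:ℝ), y ^ (3 - 1) • (2 * π * y * exp (-c * y ^ 2)) =
      2 * π * ∫ y in Ioi (0:ℝ), y ^ (3:ℝ) * exp (-c * y ^ (2:ℝ)) := by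
    rw [← integral_const_mul]
    refine setIntegral_congr_fun measurableSet_Ioi (fun y hy => ?_)
    have e1 : y ^ (3:ℝ) = y ^ 3 := by
      rw [show (3:ℝ) = ((3:ℕ):ℝ) by norm_num, rpow_natCast]
    have e2 : y ^ (2:ℝ) = y ^ 2 := by
      rw [show (2:ℝ) = ((2:ℕ):ℝ) by norm_num, rpow_natCast]
    simp only [e1, e2, smul_eq_mul]
    ring
  rw [hball, h4, h3]
  have e3 : (-((3:ℝ) + 1) / 2) = -2 := by norm_num
  have e4 : (((3:ℝ) + 1) / 2) = 1 + 1 := by norm_num
  rw [e3, e4, Gamma_add_one one_ne_zero, Gamma_one, rpow_neg hc.le,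
    show (2:ℝ) = ((2:ℕ):ℝ) by norm_num, rpow_natCast]
  simp only [smul_eq_mul, nsmul_eq_mul]
  have : c ≠ 0 := hc.ne'
  push_cast
  field_simp

theorem lint_norm_gauss (hE : finrank ℝ E = 3) {c : ℝ} (hc : 0 < c) :
    ∫⁻ x : E, ENNReal.ofReal (2 * π * ‖x‖ * exp (-c * ‖x‖ ^ 2)) =
      ENNReal.ofReal (4 * π ^ 2 / c ^ 2) :=
  lint_of_int (Filter.Eventually.of_forall fun x => by positivity) (int_norm_gauss hE hc)
    (by positivity)

/-- the layer `s ^ (b-1) e^{-s(1+|x|^2)}` -/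
theorem lint_layer (x : E) {b : ℝ} (hb : 0 < b) :
    ∫⁻ s in Ioi (0:ℝ), ENNReal.ofReal (s ^ (b - 1) * exp (-((1 + ‖x‖ ^ 2) * s))) =
      ENNReal.ofReal ((1 + ‖x‖ ^ 2) ^ (-b) * Gamma b) :=
  lint_gamma hb (by positivity)

theorem meas_layer (b : ℝ) : Measurable (fun p : E × ℝ =>
    p.2 ^ (b - 1) * exp (-((1 + ‖p.1‖ ^ 2) * p.2))) := by
  fun_prop

/-- the double integral of the layers -/
theorem lint_layer_swap (hE : finrank ℝ E = 3) {b : ℝ} (hb : 3 / 2 < b) :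
    ∫⁻ x : E, ∫⁻ s in Ioi (0:ℝ), ENNReal.ofReal (s ^ (b - 1) * exp (-((1 + ‖x‖ ^ 2) * s))) =
      ENNReal.ofReal (π ^ (3 / 2 : ℝ) * Gamma (b - 3 / 2)) := by
  rw [lintegral_lintegral_swap (meas_layer b).ennreal_ofReal.aemeasurable]
  have h1 : ∀ s ∈ Ioi (0:ℝ),
      ∫⁻ x : E, ENNReal.ofReal (s ^ (b - 1) * exp (-((1 + ‖x‖ ^ 2) * s))) =
        ENNReal.ofReal (π ^ (3 / 2 : ℝ)) *
          ENNReal.ofReal (s ^ ((b - 3 / 2) - 1) * exp (-(1 * s))) := by
    intro s hs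
    have hs' : (0:ℝ) < s := hs
    have h2 : ∀ x : E, ENNReal.ofReal (s ^ (b - 1) * exp (-((1 + ‖x‖ ^ 2) * s))) =
        ENNReal.ofReal (s ^ (b - 1) * exp (-s)) * ENNReal.ofReal (exp (-s * ‖x‖ ^ 2)) := by
      intro x
      rw [← ENNReal.ofReal_mul (by positivity)]
      congr 1
      rw [mul_assoc, ← exp_add]
      congr 2
      ring
    simp only [h2]
    rw [lintegral_const_mul _ (by fun_prop), lint_gauss hE hs', ← ENNReal.ofReal_mul (by positivity),
      ← ENNReal.ofReal_mul (by positivity)]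
    congr 1
    rw [div_rpow pi_nonneg hs'.le]
    have : s ^ (b - 3 / 2 - 1) = s ^ (b - 1) / s ^ (3 / 2 : ℝ) := by
      rw [← rpow_sub hs']; congr 1; ring
    rw [this, one_mul]
    ring
  rw [setLIntegral_congr_fun measurableSet_Ioi h1, lintegral_const_mul _ (by fun_prop),
    lint_gamma (by linarith) one_pos, ← ENNReal.ofReal_mul (by positivity)]
  simp

theorem lint_pow (hE : finrank ℝ E = 3) {b : ℝ} (hb : 3 / 2 < b) :
    ∫⁻ x : E, ENNReal.ofReal ((1 + ‖x‖ ^ 2) ^ (-b)) =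
      ENNReal.ofReal (π ^ (3 / 2 : ℝ) * Gamma (b - 3 / 2) / Gamma b) := by
  have hb0 : 0 < b := by linarith
  have hG : 0 < Gamma b := Gamma_pos_of_pos hb0
  have h := lint_layer_swap (E := E) hE hb
  simp only [lint_layer _ hb0] at h
  have h1 : ∀ x : E, ENNReal.ofReal ((1 + ‖x‖ ^ 2) ^ (-b) * Gamma b) =
      ENNReal.ofReal ((1 + ‖x‖ ^ 2) ^ (-b)) * ENNReal.ofReal (Gamma b) := by
    intro x
    rw [← ENNReal.ofReal_mul (by positivity)]
  simp only [h1] at h
  rw [lintegral_mul_const _ (by fun_prop)] at h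
  rw [ENNReal.ofReal_div_of_pos hG, ← h]
  rw [ENNReal.mul_div_cancel_right] <;> simp [hG]

end E

end Pool.H677.Rel
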