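import Pool.Agent.Helper677.RelInt

open MeasureTheory Real Set Module
open scoped ENNReal

set_option linter.unusedSectionVars false

namespace Pool.H677.Rel

theorem lint_sq_swap {α : Type*} [MeasurableSpace α] {μ : Measure α} [SFinite μ]
    {ν : Measure ℝ} [SFinite ν] {f : α → ℝ≥0∞} (hf : Measurable f) {k : α → ℝ → ℝ≥0∞}
    (hk : Measurable (Function.uncurry k)) :
    ∫⁻ x, f x * (∫⁻ s, k x s ∂ν) ^ 2 ∂μ =
      ∫⁻ s, ∫⁻ s', ∫⁻ x, f x * k x s * k x s' ∂μ ∂ν ∂ν := by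
  have hkx : ∀ x, Measurable (k x) := fun x => hk.comp (measurable_const.prodMk measurable_id)
  have hks : ∀ s, Measurable (fun x => k x s) :=
    fun s => hk.comp (measurable_id.prodMk measurable_const)
  have hK : Measurable (fun x => ∫⁻ s, k x s ∂ν) := hk.lintegral_prod_right'
  have h1 : ∀ x, f x * (∫⁻ s, k x s ∂ν) ^ 2 =
      ∫⁻ s, f x * k x s * (∫⁻ s', k x s' ∂ν) ∂ν := by
    intro x
    rw [lintegral_mul_const _ ((hkx x).const_mul _), lintegral_const_mul _ (hkx x)]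
    ring
  simp only [h1]
  rw [lintegral_lintegral_swap]
  · refine lintegral_congr fun s => ?_
    have h2 : ∀ x, f x * k x s * (∫⁻ s', k x s' ∂ν) = ∫⁻ s', f x * k x s * k x s' ∂ν := by
      intro x
      rw [lintegral_const_mul _ (hkx x)]
    simp only [h2]
    rw [lintegral_lintegral_swap]
    exact ((((hf.comp measurable_fst).mul ((hks s).comp measurable_fst))).mul hk).aemeasurable
  · exact (((hf.comp measurable_fst).mul hk).mul (hK.comp measurable_fst)).aemeasurable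

/-- Beta integral -/
theorem lint_beta {a : ℝ} (ha : 1 / 2 < a) :
    ∫⁻ u in Ioi (0:ℝ), ENNReal.ofReal u * ENNReal.ofReal ((1 + u) ^ (-(2 * a + 1))) =
      ENNReal.ofReal (Gamma (2 * a - 1) / Gamma (2 * a + 1)) := by
  have hG : 0 < Gamma (2 * a + 1) := Gamma_pos_of_pos (by linarith)
  have h1 : ∀ u ∈ Ioi (0:ℝ), ENNReal.ofReal u * ENNReal.ofReal ((1 + u) ^ (-(2 * a + 1))) =
      (∫⁻ t in Ioi (0:ℝ), ENNReal.ofReal u *
        ENNReal.ofReal (t ^ ((2 * a + 1) - 1) * exp (-((1 + u) * t)))) *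
        ENNReal.ofReal (1 / Gamma (2 * a + 1)) := by
    intro u hu
    have hu' : (0:ℝ) < u := hu
    rw [lintegral_const_mul _ (by fun_prop), lint_gamma (by linarith) (by linarith), mul_assoc]
    congr 1
    rw [← ENNReal.ofReal_mul (mul_nonneg (by positivity) hG.le)]
    congr 1
    field_simp
  rw [setLIntegral_congr_fun measurableSet_Ioi h1, lintegral_mul_const _ (by fun_prop),
    lintegral_lintegral_swap (by fun_prop)]
  have h2 : ∀ t ∈ Ioi (0:ℝ), ∫⁻ u in Ioi (0:ℝ), ENNReal.ofReal u *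
        ENNReal.ofReal (t ^ ((2 * a + 1) - 1) * exp (-((1 + u) * t))) =
      ENNReal.ofReal (t ^ ((2 * a - 1) - 1) * exp (-(1 * t))) := by
    intro t ht
    have ht' : (0:ℝ) < t := ht
    have h3 : ∀ u ∈ Ioi (0:ℝ), ENNReal.ofReal u *
        ENNReal.ofReal (t ^ ((2 * a + 1) - 1) * exp (-((1 + u) * t))) =
        ENNReal.ofReal (t ^ (2 * a) * exp (-t)) *
          ENNReal.ofReal (u ^ ((2:ℝ) - 1) * exp (-(t * u))) := by
      intro u hu
      have hu' : (0:ℝ) < u := hu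
      rw [← ENNReal.ofReal_mul hu'.le, ← ENNReal.ofReal_mul (by positivity)]
      congr 1
      have e1 : u ^ ((2:ℝ) - 1) = u := by norm_num
      have e2 : exp (-((1 + u) * t)) = exp (-t) * exp (-(t * u)) := by
        rw [← exp_add]; congr 1; ring
      have e3 : (2 * a + 1 - 1) = 2 * a := by ring
      rw [e1, e2, e3]
      ring
    rw [setLIntegral_congr_fun measurableSet_Ioi h3, lintegral_const_mul _ (by fun_prop),
      lint_gamma (by norm_num) ht', ← ENNReal.ofReal_mul (by positivity)]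
    congr 1
    have e4 : Gamma 2 = 1 := by
      rw [show (2:ℝ) = 1 + 1 by norm_num, Gamma_add_one one_ne_zero, Gamma_one]; norm_num
    have e5 : t ^ (2 * a - 1 - 1) = t ^ (2 * a) * t ^ (-(2:ℝ)) := by
      rw [← rpow_add ht']; congr 1; ring
    rw [e4, e5, one_mul]
    ring
  have hG' : 0 < Gamma (2 * a - 1) := Gamma_pos_of_pos (by linarith)
  rw [setLIntegral_congr_fun measurableSet_Ioi h2, lint_gamma (by linarith) one_pos,
    ← ENNReal.ofReal_mul (mul_nonneg (by positivity) hG'.le)]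
  congr 1
  rw [one_rpow]
  ring

section E

variable {E : Type*} [NormedAddCommGroup E] [InnerProductSpace ℝ E] [FiniteDimensional ℝ E]
  [MeasurableSpace E] [BorelSpace E]

/-- the layers of the Fourier transform of `(1 + |x|^2)^(-a)` (up to `1 / Γ(a)`) -/
noncomputable def ker (a : ℝ) (ξ : E) (s : ℝ) : ℝ :=
  s ^ (a - 1) * exp (-s) * (π / s) ^ (3 / 2 : ℝ) * exp (-π ^ 2 * ‖ξ‖ ^ 2 / s)

theorem meas_ker (a : ℝ) : Measurable (Function.uncurry (ker (E := E) a)) := by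
  unfold ker Function.uncurry
  fun_prop

theorem ker_nonneg (a : ℝ) (ξ : E) {s : ℝ} (hs : 0 < s) : 0 ≤ ker a ξ s := by
  unfold ker; positivity

/-- the kinetic energy of the layers -/
theorem kin_lint (hE : finrank ℝ E = 3) {a : ℝ} (ha : 1 / 2 < a) :
    ∫⁻ ξ : E, ENNReal.ofReal (2 * π * ‖ξ‖) *
        (∫⁻ s in Ioi (0:ℝ), ENNReal.ofReal (ker a ξ s)) ^ 2 =
      ENNReal.ofReal (4 * π * Gamma (a + 1 / 2) ^ 2 * (Gamma (2 * a - 1) / Gamma (2 * a + 1))) := by
  have hG1 : 0 < Gamma (2 * a - 1) := Gamma_pos_of_pos (by linarith)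
  have hG2 : 0 < Gamma (2 * a + 1) := Gamma_pos_of_pos (by linarith)
  have hG3 : 0 < Gamma (a + 1 / 2) := Gamma_pos_of_pos (by linarith)
  rw [lint_sq_swap (by fun_prop) (meas_ker a).ennreal_ofReal]
  -- the inner integral
  have h1 : ∀ s ∈ Ioi (0:ℝ), ∀ s' ∈ Ioi (0:ℝ),
      ∫⁻ ξ : E, ENNReal.ofReal (2 * π * ‖ξ‖) * ENNReal.ofReal (ker a ξ s) *
        ENNReal.ofReal (ker a ξ s') =
      ENNReal.ofReal (4 * π) * ∫⁻ u in Ioi (0:ℝ), ENNReal.ofReal u *
        ENNReal.ofReal (s ^ ((a + 1 / 2) - 1) * exp (-((1 + u) * s))) *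
        ENNReal.ofReal (s' ^ ((a + 1 / 2) - 1) * exp (-((1 + u) * s'))) := by
    intro s hs s' hs'
    have hs0 : (0:ℝ) < s := hs
    have hs0' : (0:ℝ) < s' := hs'
    have hc : 0 < π ^ 2 * (1 / s + 1 / s') := by positivity
    have h2 : ∀ ξ : E, ENNReal.ofReal (2 * π * ‖ξ‖) * ENNReal.ofReal (ker a ξ s) *
        ENNReal.ofReal (ker a ξ s') =
        ENNReal.ofReal ((s ^ (a - 1) * exp (-s) * (π / s) ^ (3 / 2 : ℝ)) *
          (s' ^ (a - 1) * exp (-s') * (π / s') ^ (3 / 2 : ℝ))) *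
        ENNReal.ofReal (2 * π * ‖ξ‖ * exp (-(π ^ 2 * (1 / s + 1 / s')) * ‖ξ‖ ^ 2)) := by
      intro ξ
      rw [← ENNReal.ofReal_mul (by positivity), ← ENNReal.ofReal_mul
        (mul_nonneg (by positivity) (ker_nonneg a ξ hs0)), ← ENNReal.ofReal_mul (by positivity)]
      congr 1
      have e1 : exp (-(π ^ 2 * (1 / s + 1 / s')) * ‖ξ‖ ^ 2) =
          exp (-π ^ 2 * ‖ξ‖ ^ 2 / s) * exp (-π ^ 2 * ‖ξ‖ ^ 2 / s') := by
        rw [← exp_add]; congr 1; ring
      rw [e1]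
      unfold ker
      ring
    simp only [h2]
    rw [lintegral_const_mul _ (by fun_prop), lint_norm_gauss hE hc]
    have h3 : ∀ u ∈ Ioi (0:ℝ), ENNReal.ofReal u *
        ENNReal.ofReal (s ^ ((a + 1 / 2) - 1) * exp (-((1 + u) * s))) *
        ENNReal.ofReal (s' ^ ((a + 1 / 2) - 1) * exp (-((1 + u) * s'))) =
        ENNReal.ofReal (s ^ ((a + 1 / 2) - 1) * s' ^ ((a + 1 / 2) - 1) *
          exp (-s) * exp (-s')) *
          ENNReal.ofReal (u ^ ((2:ℝ) - 1) * exp (-((s + s') * u))) := by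
      intro u hu
      have hu' : (0:ℝ) < u := hu
      rw [← ENNReal.ofReal_mul (by positivity), ← ENNReal.ofReal_mul (by positivity),
        ← ENNReal.ofReal_mul (by positivity)]
      congr 1
      have e1 : u ^ ((2:ℝ) - 1) = u := by norm_num
      have e2 : exp (-((1 + u) * s)) * exp (-((1 + u) * s')) =
          exp (-s) * exp (-s') * exp (-((s + s') * u)) := by
        rw [← exp_add, ← exp_add, ← exp_add]; congr 1; ring
      rw [e1]
      calc u * (s ^ (a + 1 / 2 - 1) * exp (-((1 + u) * s))) *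
            (s' ^ (a + 1 / 2 - 1) * exp (-((1 + u) * s'))) =
          u * s ^ (a + 1 / 2 - 1) * s' ^ (a + 1 / 2 - 1) *
            (exp (-((1 + u) * s)) * exp (-((1 + u) * s'))) := by ring
        _ = _ := by rw [e2]; ring
    rw [setLIntegral_congr_fun measurableSet_Ioi h3, lintegral_const_mul _ (by fun_prop),
      lint_gamma (by norm_num) (by positivity), ← ENNReal.ofReal_mul (by positivity),
      ← ENNReal.ofReal_mul (by positivity), ← ENNReal.ofReal_mul (by positivity)]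
    congr 1
    have e4 : Gamma 2 = 1 := by
      rw [show (2:ℝ) = 1 + 1 by norm_num, Gamma_add_one one_ne_zero, Gamma_one]; norm_num
    have e5 : (s + s') ^ (-(2:ℝ)) = 1 / (s + s') ^ 2 := by
      rw [rpow_neg (by positivity), show (2:ℝ) = ((2:ℕ):ℝ) by norm_num, rpow_natCast, one_div]
    have e6 : ∀ t : ℝ, 0 < t → t ^ (a + 1 / 2 - 1) * π ^ (3 / 2 : ℝ) =
        t ^ (a - 1) * (π / t) ^ (3 / 2 : ℝ) * t ^ 2 := by
      intro t ht
      rw [div_rpow pi_nonneg ht.le]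
      have : t ^ (a + 1 / 2 - 1) * t ^ (3 / 2 : ℝ) = t ^ (a - 1) * t ^ 2 := by
        rw [← rpow_natCast t 2, ← rpow_add ht, ← rpow_add ht]; congr 1; push_cast; ring
      have key : ∀ X Y Z W P : ℝ, Y ≠ 0 → X * Y = Z * W → X * P = Z * (P / Y) * W := by
        intro X Y Z W P hY h
        field_simp
        linear_combination P * h
      exact key _ _ _ _ _ (by positivity) this
    have e7 : π ^ (3 / 2 : ℝ) * π ^ (3 / 2 : ℝ) = π ^ 3 := by
      rw [← rpow_add pi_pos, ← rpow_natCast]; norm_num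
    have e8 := e6 s hs0
    have e9 := e6 s' hs0'
    rw [e4, e5]
    have hne : (s + s') ≠ 0 := by positivity
    have hs1 := hs0.ne'
    have hs2 := hs0'.ne'
    have hπ := pi_ne_zero
    have e10 : 4 * π ^ 2 / (π ^ 2 * (1 / s + 1 / s')) ^ 2 =
        4 * (s ^ 2 * s' ^ 2) / (π ^ 2 * (s + s') ^ 2) := by
      field_simp
      ring
    rw [e10]
    have e11 : s ^ (a - 1) * exp (-s) * (π / s) ^ (3 / 2 : ℝ) *
        (s' ^ (a - 1) * exp (-s') * (π / s') ^ (3 / 2 : ℝ)) *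
        (4 * (s ^ 2 * s' ^ 2) / (π ^ 2 * (s + s') ^ 2)) =
        (s ^ (a - 1) * (π / s) ^ (3 / 2 : ℝ) * s ^ 2) *
        (s' ^ (a - 1) * (π / s') ^ (3 / 2 : ℝ) * s' ^ 2) * exp (-s) * exp (-s') * 4 /
        (π ^ 2 * (s + s') ^ 2) := by ring
    rw [e11, ← e8, ← e9]
    have e12 : s ^ (a + 1 / 2 - 1) * π ^ (3 / 2 : ℝ) * (s' ^ (a + 1 / 2 - 1) * π ^ (3 / 2 : ℝ)) =
        s ^ (a + 1 / 2 - 1) * s' ^ (a + 1 / 2 - 1) * π ^ 3 := by rw [← e7]; ring
    rw [e12]
    field_simp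
  have h4 : ∀ s ∈ Ioi (0:ℝ), ∫⁻ s' in Ioi (0:ℝ), ∫⁻ ξ : E, ENNReal.ofReal (2 * π * ‖ξ‖) *
        ENNReal.ofReal (ker a ξ s) * ENNReal.ofReal (ker a ξ s') =
      ∫⁻ s' in Ioi (0:ℝ), ENNReal.ofReal (4 * π) * ∫⁻ u in Ioi (0:ℝ), ENNReal.ofReal u *
        ENNReal.ofReal (s ^ ((a + 1 / 2) - 1) * exp (-((1 + u) * s))) *
        ENNReal.ofReal (s' ^ ((a + 1 / 2) - 1) * exp (-((1 + u) * s'))) := by
    intro s hs
    exact setLIntegral_congr_fun measurableSet_Ioi (fun s' hs' => h1 s hs s' hs')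
  rw [setLIntegral_congr_fun measurableSet_Ioi h4]
  have hkm : Measurable (Function.uncurry (fun u s : ℝ =>
      ENNReal.ofReal (s ^ ((a + 1 / 2) - 1) * exp (-((1 + u) * s))))) := by
    unfold Function.uncurry; fun_prop
  have h5 := lint_sq_swap (μ := volume.restrict (Ioi (0:ℝ))) (ν := volume.restrict (Ioi (0:ℝ)))
    (f := fun u : ℝ => ENNReal.ofReal u) (by fun_prop) hkm
  have h6 : ∀ u ∈ Ioi (0:ℝ), ENNReal.ofReal u *
      (∫⁻ s in Ioi (0:ℝ), ENNReal.ofReal (s ^ ((a + 1 / 2) - 1) * exp (-((1 + u) * s)))) ^ 2 =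
      (ENNReal.ofReal u * ENNReal.ofReal ((1 + u) ^ (-(2 * a + 1)))) *
        ENNReal.ofReal (Gamma (a + 1 / 2) ^ 2) := by
    intro u hu
    have hu' : (0:ℝ) < u := hu
    rw [lint_gamma (by linarith) (by linarith), ← ENNReal.ofReal_pow
      (mul_nonneg (by positivity) hG3.le), mul_assoc]
    congr 1
    rw [← ENNReal.ofReal_mul (by positivity)]
    congr 1
    rw [mul_pow, ← rpow_natCast ((1 + u) ^ (-(a + 1 / 2))), ← rpow_mul (by linarith)]
    congr 2
    push_cast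
    ring
  rw [setLIntegral_congr_fun measurableSet_Ioi h6, lintegral_mul_const _ (by fun_prop),
    lint_beta ha] at h5
  have hm : ∀ s : ℝ, Measurable fun s' : ℝ => ∫⁻ u in Ioi (0:ℝ), ENNReal.ofReal u *
        ENNReal.ofReal (s ^ ((a + 1 / 2) - 1) * exp (-((1 + u) * s))) *
        ENNReal.ofReal (s' ^ ((a + 1 / 2) - 1) * exp (-((1 + u) * s'))) := by
    intro s
    apply Measurable.lintegral_prod_right'
      (f := fun p : ℝ × ℝ => ENNReal.ofReal p.2 *
        ENNReal.ofReal (s ^ ((a + 1 / 2) - 1) * exp (-((1 + p.2) * s))) *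
        ENNReal.ofReal (p.1 ^ ((a + 1 / 2) - 1) * exp (-((1 + p.2) * p.1))))
    fun_prop
  have h7 : ∀ s : ℝ, ∫⁻ s' in Ioi (0:ℝ), ENNReal.ofReal (4 * π) *
      ∫⁻ u in Ioi (0:ℝ), ENNReal.ofReal u *
        ENNReal.ofReal (s ^ ((a + 1 / 2) - 1) * exp (-((1 + u) * s))) *
        ENNReal.ofReal (s' ^ ((a + 1 / 2) - 1) * exp (-((1 + u) * s'))) =
      ENNReal.ofReal (4 * π) * ∫⁻ s' in Ioi (0:ℝ), ∫⁻ u in Ioi (0:ℝ), ENNReal.ofReal u *
        ENNReal.ofReal (s ^ ((a + 1 / 2) - 1) * exp (-((1 + u) * s))) *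
        ENNReal.ofReal (s' ^ ((a + 1 / 2) - 1) * exp (-((1 + u) * s'))) :=
    fun s => lintegral_const_mul _ (hm s)
  simp only [h7]
  rw [lintegral_const_mul', ← h5, ← ENNReal.ofReal_mul (by positivity),
    ← ENNReal.ofReal_mul (by positivity)]
  · congr 1
    ring
  · exact ENNReal.ofReal_ne_top

end E

end Pool.H677.Rel
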